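import Mathlib

set_option autoImplicit false

open MeasureTheory Filter Topology
open scoped ComplexConjugate NNReal ENNReal

namespace Pool.Agent.H399Z.Corr

/-- The standard character of the circle. -/
noncomputable def ee (t : UnitAddCircle) : ℂ := AddCircle.toCircle t

lemma norm_ee (t : UnitAddCircle) : ‖ee t‖ = 1 := Circle.norm_coe _

lemma cont_ee : Continuous ee :=
  continuous_subtype_val.comp AddCircle.continuous_toCircle

lemma ee_nsmul (n : ℕ) (t : UnitAddCircle) : ee (n • t) = ee t ^ n := by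
  simp [ee, AddCircle.toCircle_nsmul]

lemma ee_inj : Function.Injective ee := fun _ _ h =>
  AddCircle.injective_toCircle one_ne_zero (Circle.ext h)

lemma ee_pow_eq (n : ℕ) (t : UnitAddCircle) : ee t ^ n = fourier (n : ℤ) t := by
  rw [fourier_apply, natCast_zsmul, ← ee_nsmul]; rfl

lemma orth (n m : ℕ) :
    ∫ t : UnitAddCircle, ee t ^ n * conj (ee t ^ m) ∂AddCircle.haarAddCircle =
      if n = m then 1 else 0 := by
  simp_rw [ee_pow_eq, ← fourier_neg, ← fourier_add]
  split_ifs with h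
  · simp [h]
  · have hij : (n : ℤ) + -(m : ℤ) ≠ 0 := by omega
    exact integral_eq_zero_of_add_right_eq_neg (μ := AddCircle.haarAddCircle)
      (fourier_add_half_inv_index hij one_pos)

lemma int_bdd {α : Type*} [MeasurableSpace α] [TopologicalSpace α] [OpensMeasurableSpace α]
    (μ : Measure α) [IsFiniteMeasure μ] {f : α → ℂ} (hf : Continuous f) (K : ℝ)
    (hK : ∀ x, ‖f x‖ ≤ K) : Integrable f μ :=
  Integrable.of_bound hf.measurable.aestronglyMeasurable K (Eventually.of_forall hK)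

/-- The trigonometric polynomial of a finite sequence. -/
noncomputable def trig (a : ℕ → ℂ) (L : ℕ) (t : UnitAddCircle) : ℂ :=
  ∑ n ∈ Finset.range L, a n * conj (ee t ^ n)

lemma cont_trig (a : ℕ → ℂ) (L : ℕ) : Continuous (trig a L) := by
  have := cont_ee
  unfold trig; fun_prop

lemma int_trig (a : ℕ → ℂ) (L h : ℕ) :
    ∫ t : UnitAddCircle, ((‖trig a L t‖ ^ 2 : ℝ) : ℂ) * ee t ^ h ∂AddCircle.haarAddCircle =
      ∑ n ∈ (Finset.range L).filter (fun n => n + h < L), a (n + h) * conj (a n) := by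
  have h1 : ∀ t : UnitAddCircle, ((‖trig a L t‖ ^ 2 : ℝ) : ℂ) * ee t ^ h =
      ∑ n ∈ Finset.range L, ∑ m ∈ Finset.range L,
        (a m * conj (a n)) * (ee t ^ (n + h) * conj (ee t ^ m)) := by
    intro t
    push_cast
    rw [← Complex.conj_mul', trig, map_sum, Finset.sum_mul_sum, Finset.sum_mul]
    refine Finset.sum_congr rfl fun n _ => ?_
    rw [Finset.sum_mul]
    refine Finset.sum_congr rfl fun m _ => ?_
    simp only [map_mul, Complex.conj_conj, pow_add]
    ring
  have hint : ∀ n m : ℕ, Integrable (fun t : UnitAddCircle =>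
      (a m * conj (a n)) * (ee t ^ (n + h) * conj (ee t ^ m))) AddCircle.haarAddCircle := by
    intro n m
    have := cont_ee
    refine (int_bdd _ (by fun_prop) 1 fun t => ?_).const_mul _
    simp [norm_ee]
  simp_rw [h1]
  rw [integral_finsetSum _ fun n _ => integrable_finsetSum _ fun m _ => hint n m,
    Finset.sum_filter]
  refine Finset.sum_congr rfl fun n _ => ?_
  rw [integral_finsetSum _ fun m _ => hint n m]
  simp_rw [integral_const_mul, orth]
  simp only [mul_ite, mul_one, mul_zero, Finset.sum_ite_eq, Finset.mem_range]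

/-- The spectral measure of a finite sequence. -/
noncomputable def dens (a : ℕ → ℂ) (L : ℕ) (t : UnitAddCircle) : ℝ≥0 :=
  ⟨‖trig a L t‖ ^ 2 / L, by positivity⟩

lemma cont_dens (a : ℕ → ℂ) (L : ℕ) : Continuous (dens a L) := by
  have := cont_trig a L
  refine Continuous.subtype_mk ?_ _
  fun_prop

lemma int_dens (a : ℕ → ℂ) (L h : ℕ) :
    ∫ t : UnitAddCircle, ee t ^ h
      ∂(AddCircle.haarAddCircle.withDensity fun t => (dens a L t : ℝ≥0∞)) =
      (∑ n ∈ (Finset.range L).filter (fun n => n + h < L), a (n + h) * conj (a n)) / L := by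
  rw [integral_withDensity_eq_integral_smul (cont_dens a L).measurable, ← int_trig,
    ← integral_div]
  congr 1; ext t
  rw [NNReal.smul_def, Complex.real_smul]
  have : ((dens a L t : ℝ≥0) : ℝ) = ‖trig a L t‖ ^ 2 / L := rfl
  rw [this]
  push_cast
  ring

lemma fin_dens (a : ℕ → ℂ) (L : ℕ) :
    IsFiniteMeasure (AddCircle.haarAddCircle.withDensity fun t => (dens a L t : ℝ≥0∞)) := by
  apply isFiniteMeasure_withDensity
  have : Integrable (fun t => (dens a L t : ℝ)) (AddCircle.haarAddCircle (T := 1)) :=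
    (NNReal.continuous_coe.comp (cont_dens a L)).integrable_of_hasCompactSupport
      (HasCompactSupport.of_compactSpace _)
  exact ((lintegral_coe_eq_integral _ this).trans_ne ENNReal.ofReal_ne_top)

theorem herglotz (U : Ultrafilter ℕ) (L : ℕ → ℕ) (hL : Tendsto L U atTop) (a : ℕ → ℕ → ℂ)
    (ha : ∀ k n, ‖a k n‖ ≤ 2) :
    ∃ σ : FiniteMeasure UnitAddCircle, ∀ h : ℕ,
      Tendsto (fun k => (∑ n ∈ Finset.range (L k), a k (n + h) * conj (a k n)) / (L k : ℂ)) U
        (𝓝 (∫ t, ee t ^ h ∂(σ : Measure UnitAddCircle))) := by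
  let s : ℕ → FiniteMeasure UnitAddCircle := fun k =>
    ⟨AddCircle.haarAddCircle.withDensity fun t => (dens (a k) (L k) t : ℝ≥0∞), fin_dens _ _⟩
  have hb : ∀ k n m, ‖a k n * conj (a k m)‖ ≤ 4 := by
    intro k n m
    rw [norm_mul, Complex.norm_conj]
    nlinarith [ha k n, ha k m, norm_nonneg (a k n), norm_nonneg (a k m)]
  have hmass : ∀ k, (s k).mass ≤ 4 := by
    intro k
    have h1 := int_dens (a k) (L k) 0
    simp only [pow_zero, integral_const, add_zero, Complex.real_smul, mul_one] at h1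
    have h2 : ((s k).mass : ℝ) = ‖(∑ n ∈ (Finset.range (L k)).filter (fun n => n < L k),
        a k n * conj (a k n)) / (L k : ℂ)‖ := by
      rw [← h1, Complex.norm_real, Real.norm_of_nonneg measureReal_nonneg]
      rfl
    rw [← NNReal.coe_le_coe, h2, norm_div, Complex.norm_natCast]
    rcases Nat.eq_zero_or_pos (L k) with h0 | h0
    · simp [h0]
    · rw [div_le_iff₀ (by exact_mod_cast h0)]
      refine (norm_sum_le _ _).trans ?_
      refine (Finset.sum_le_card_nsmul _ _ 4 fun n _ => hb k n n).trans ?_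
      have := Finset.card_filter_le (Finset.range (L k)) (fun n => n < L k)
      rw [Finset.card_range] at this
      rw [nsmul_eq_mul, mul_comm]
      have h3 : (((Finset.range (L k)).filter (fun n => n < L k)).card : ℝ) ≤ L k := by
        exact_mod_cast this
      push_cast
      linarith
  obtain ⟨σ, -, hσ⟩ := (isCompact_setOfPred_finiteMeasure_le_of_compactSpace UnitAddCircle
    4).ultrafilter_le_nhds (U.map s) (by
      rw [Ultrafilter.coe_map, le_principal_iff, mem_map]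
      exact univ_mem' hmass)
  refine ⟨σ, fun h => ?_⟩
  have hσ' : Tendsto s U (𝓝 σ) := hσ
  have h1 := (FiniteMeasure.tendsto_iff_forall_integral_rclike_tendsto ℂ).1 hσ'
    (BoundedContinuousFunction.mkOfCompact ⟨fun t => ee t ^ h, cont_ee.pow h⟩)
  simp only [BoundedContinuousFunction.mkOfCompact_apply, ContinuousMap.coe_mk] at h1
  have h2 : Tendsto (fun k => (∑ n ∈ (Finset.range (L k)).filter (fun n => ¬ n + h < L k),
      a k (n + h) * conj (a k n)) / (L k : ℂ)) U (𝓝 0) := by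
    have h3 : Tendsto (fun k => (4 * h : ℝ) / (L k : ℝ)) U (𝓝 0) :=
      (tendsto_const_div_atTop_nhds_zero_nat (4 * h : ℝ)).comp hL
    refine squeeze_zero_norm (fun k => ?_) h3
    rw [norm_div, Complex.norm_natCast]
    refine div_le_div_of_nonneg_right ?_ (Nat.cast_nonneg _)
    refine (norm_sum_le _ _).trans ?_
    refine (Finset.sum_le_card_nsmul _ _ 4 fun n _ => hb k _ n).trans ?_
    have h4 : ((Finset.range (L k)).filter (fun n => ¬ n + h < L k)).card ≤ h := by
      refine (Finset.card_le_card (t := Finset.Ico (L k - h) (L k)) ?_).trans ?_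
      · intro n hn
        simp only [Finset.mem_filter, Finset.mem_range, Finset.mem_Ico] at hn ⊢
        omega
      · rw [Nat.card_Ico]; omega
    rw [nsmul_eq_mul, mul_comm]
    have h5 : (((Finset.range (L k)).filter (fun n => ¬ n + h < L k)).card : ℝ) ≤ h := by
      exact_mod_cast h4
    linarith
  have h6 := h1.add h2
  rw [add_zero] at h6
  refine h6.congr fun k => ?_
  have h7 := int_dens (a k) (L k) h
  change ∫ t, ee t ^ h ∂(AddCircle.haarAddCircle.withDensity
    fun t => (dens (a k) (L k) t : ℝ≥0∞)) + _ = _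
  rw [h7, ← add_div, Finset.sum_filter_add_sum_filter_not]

lemma geom_tendsto {z : ℂ} (hz : ‖z‖ = 1) (h1 : z ≠ 1) :
    Tendsto (fun H : ℕ => ‖∑ h ∈ Finset.range H, z ^ h‖ / (H : ℝ)) atTop (𝓝 0) := by
  have h3 : Tendsto (fun H : ℕ => (2 / ‖z - 1‖ : ℝ) / (H : ℝ)) atTop (𝓝 0) :=
    tendsto_const_div_atTop_nhds_zero_nat _
  refine squeeze_zero (fun H => by positivity) (fun H => ?_) h3
  refine div_le_div_of_nonneg_right ?_ (Nat.cast_nonneg _)
  rw [geom_sum_eq h1, norm_div]
  refine div_le_div_of_nonneg_right ?_ (norm_nonneg _)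
  refine (norm_sub_le _ _).trans ?_
  rw [norm_pow, hz]
  norm_num

theorem wiener (σ : Measure UnitAddCircle) [IsFiniteMeasure σ] (hσ : ∀ t, σ {t} = 0)
    (η : ℝ) (hη : 0 < η) :
    ∃ H₀ : ℕ, ∀ H : ℕ, H₀ ≤ H → ∀ m : ℕ,
      ∑ h ∈ Finset.range H, ‖∫ t, ee t ^ (m + h) ∂σ‖ ^ 2 ≤ η * H := by
  have hc := cont_ee
  let z : UnitAddCircle × UnitAddCircle → ℂ := fun p => ee p.1 * conj (ee p.2)
  have hz : ∀ p, ‖z p‖ = 1 := fun p => by simp [z, norm_ee]
  have hzc : Continuous z := by simp only [z]; fun_prop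
  have hae : ∀ᵐ p ∂(σ.prod σ), z p ≠ 1 := by
    have h1 : ∀ᵐ p ∂(σ.prod σ), p.1 ≠ p.2 := by
      rw [Measure.ae_prod_iff_ae_ae]
      · refine Eventually.of_forall fun x => ?_
        rw [ae_iff]
        simpa [eq_comm] using hσ x
      · exact (isClosed_eq continuous_fst continuous_snd).isOpen_compl.measurableSet
    filter_upwards [h1] with p hp h
    apply hp
    apply ee_inj
    have h4 : conj (ee p.2) * ee p.2 = 1 := by
      rw [Complex.conj_mul', norm_ee]; simp
    calc ee p.1 = ee p.1 * (conj (ee p.2) * ee p.2) := by rw [h4, mul_one]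
      _ = z p * ee p.2 := by simp only [z]; ring
      _ = ee p.2 := by rw [h, one_mul]
  have hbd : ∀ (H : ℕ) p, ‖∑ h ∈ Finset.range H, z p ^ h‖ ≤ H := by
    intro H p
    refine (norm_sum_le _ _).trans ?_
    simp [hz]
  have h3 : Tendsto (fun H : ℕ => ∫ p, ‖∑ h ∈ Finset.range H, z p ^ h‖ / (H : ℝ) ∂(σ.prod σ))
      atTop (𝓝 (∫ _p, (0 : ℝ) ∂(σ.prod σ))) := by
    refine tendsto_integral_of_dominated_convergence (fun _ => 1) (fun H => ?_)
      (integrable_const _) (fun H => Eventually.of_forall fun p => ?_) ?_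
    · refine Continuous.aestronglyMeasurable ?_
      fun_prop
    · rw [Real.norm_of_nonneg (by positivity)]
      exact div_le_one_of_le₀ (hbd H p) (Nat.cast_nonneg _)
    · filter_upwards [hae] with p hp
      exact geom_tendsto (hz p) hp
  rw [integral_zero] at h3
  obtain ⟨H₀, hH₀⟩ := eventually_atTop.1 (h3.eventually (gt_mem_nhds hη))
  refine ⟨max H₀ 1, fun H hH m => ?_⟩
  have hH1 : (0 : ℝ) < H := by exact_mod_cast (le_max_right _ _).trans hH
  have h4 := hH₀ H ((le_max_left _ _).trans hH)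
  rw [integral_div, div_lt_iff₀ hH1] at h4
  have h1 : ∀ n : ℕ, ((‖∫ t, ee t ^ n ∂σ‖ ^ 2 : ℝ) : ℂ) = ∫ p, z p ^ n ∂(σ.prod σ) := by
    intro n
    push_cast
    rw [← Complex.mul_conj', ← integral_conj, ← integral_prod_mul]
    congr 1; ext p
    simp only [z, map_pow, mul_pow]
  have hint : ∀ n : ℕ, Integrable (fun p => z p ^ n) (σ.prod σ) := by
    intro n
    refine int_bdd _ (by fun_prop) 1 fun p => ?_
    simp [hz]
  have h2 : ((∑ h ∈ Finset.range H, ‖∫ t, ee t ^ (m + h) ∂σ‖ ^ 2 : ℝ) : ℂ) =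
      ∫ p, z p ^ m * ∑ h ∈ Finset.range H, z p ^ h ∂(σ.prod σ) := by
    rw [Complex.ofReal_sum]
    simp_rw [h1]
    rw [← integral_finsetSum _ fun h _ => hint _]
    congr 1; ext p
    rw [Finset.mul_sum]
    simp [pow_add]
  have h5 : ∑ h ∈ Finset.range H, ‖∫ t, ee t ^ (m + h) ∂σ‖ ^ 2 ≤
      ∫ p, ‖∑ h ∈ Finset.range H, z p ^ h‖ ∂(σ.prod σ) := by
    have h6 := norm_integral_le_integral_norm (μ := σ.prod σ)
      (fun p => z p ^ m * ∑ h ∈ Finset.range H, z p ^ h)
    rw [← h2, Complex.norm_real] at h6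
    simp only [norm_mul, norm_pow, hz, one_pow, one_mul] at h6
    exact (le_abs_self _).trans h6
  linarith

theorem split (σ : Measure UnitAddCircle) [IsFiniteMeasure σ] :
    ∃ ψ : (UnitAddCircle → UnitAddCircle) → ℂ, Continuous ψ ∧ ∀ η : ℝ, 0 < η →
      ∃ H₀ : ℕ, ∀ H : ℕ, H₀ ≤ H → ∀ m : ℕ,
        ∑ h ∈ Finset.range H, ‖∫ t, ee t ^ (m + h) ∂σ - ψ (fun θ => (m + h) • θ)‖ ^ 2 ≤ η * H := by
  let S : Set UnitAddCircle := {t | 0 < σ {t}}
  have hS : S.Countable :=
    Measure.countable_meas_pos_of_disjoint_iUnion (fun t => measurableSet_singleton t)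
      (fun s t hst => Set.disjoint_singleton.2 hst)
  have hSm : MeasurableSet S := hS.measurableSet
  have : Countable S := hS.to_subtype
  have hsum : Summable fun θ : S => σ.real {(θ : UnitAddCircle)} := by
    refine ENNReal.summable_toReal ?_
    rw [← measure_iUnion (fun s t hst => Set.disjoint_singleton.2 (Subtype.coe_ne_coe.2 hst))
      (fun t => measurableSet_singleton _)]
    exact measure_ne_top _ _
  refine ⟨fun κ => ∑' θ : S, σ.real {(θ : UnitAddCircle)} • ee (κ θ), ?_, fun η hη => ?_⟩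
  · refine continuous_tsum (fun θ => ?_) hsum fun θ κ => ?_
    · have h1 : Continuous fun κ : UnitAddCircle → UnitAddCircle => κ θ := continuous_apply _
      exact (cont_ee.comp h1).const_smul (σ.real {(θ : UnitAddCircle)})
    · rw [norm_smul, norm_ee, mul_one, Real.norm_of_nonneg measureReal_nonneg]
  · obtain ⟨H₀, hH₀⟩ := wiener (σ.restrict Sᶜ) (fun t => by
      rw [Measure.restrict_apply (measurableSet_singleton t)]
      by_cases ht : t ∈ S
      · rw [Set.singleton_inter_eq_empty.2 (by simpa using ht), measure_empty]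
      · exact measure_mono_null Set.inter_subset_left (by simpa [S] using ht)) η hη
    refine ⟨H₀, fun H hH m => le_trans (le_of_eq ?_) (hH₀ H hH m)⟩
    refine Finset.sum_congr rfl fun h _ => ?_
    have hint : Integrable (fun t => ee t ^ (m + h)) σ :=
      int_bdd _ (cont_ee.pow _) 1 fun t => by simp [norm_ee]
    rw [← integral_add_compl hSm hint, setIntegral_countable _ hS hint.integrableOn]
    simp only [ee_nsmul, add_sub_cancel_left]

theorem corr_decomp (U : Ultrafilter ℕ) (L : ℕ → ℕ) (hL : Filter.Tendsto L U Filter.atTop)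
    (α β : ℕ → ℕ → ℝ) (hα : ∀ k n, |α k n| ≤ 1) (hβ : ∀ k n, |β k n| ≤ 1) (c : ℕ → ℝ)
    (hc : ∀ h, Filter.Tendsto
      (fun k => (∑ n ∈ Finset.range (L k), α k (n + h) * β k n) / (L k : ℝ)) U (nhds (c h))) :
    ∃ ψ : (UnitAddCircle → UnitAddCircle) → ℝ, Continuous ψ ∧ ∀ ε : ℝ, 0 < ε → ∀ δ : ℝ, 0 < δ →
      ∃ H₀ : ℕ, ∀ H : ℕ, H₀ ≤ H → ∀ m : ℕ,
        (({h : ℕ | h < H ∧ ε < |c (m + h) - ψ (fun θ => (m + h) • θ)|}.ncard : ℕ) : ℝ) ≤ δ * H := by
  classical
  let a : Fin 4 → ℕ → ℕ → ℂ := fun j k n => α k n + Complex.I ^ (j : ℕ) * β k n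
  have ha : ∀ j k n, ‖a j k n‖ ≤ 2 := by
    intro j k n
    refine (norm_add_le _ _).trans ?_
    rw [norm_mul, norm_pow, Complex.norm_I, one_pow, one_mul, Complex.norm_real,
      Complex.norm_real, Real.norm_eq_abs, Real.norm_eq_abs]
    linarith [hα k n, hβ k n]
  choose σ hσ using fun j => herglotz U L hL (a j) (ha j)
  choose ψ hψc hψ using fun j => split (σ j : Measure UnitAddCircle)
  have hcσ : ∀ h, (c h : ℂ) =
      (∑ j : Fin 4, Complex.I ^ (j : ℕ) * ∫ t, ee t ^ h ∂(σ j : Measure UnitAddCircle)) / 4 := by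
    intro h
    have h1 := (Complex.continuous_ofReal.tendsto _).comp (hc h)
    have h2 := (tendsto_finsetSum Finset.univ fun j _ =>
      (hσ j h).const_mul (Complex.I ^ (j : ℕ))).div_const 4
    refine tendsto_nhds_unique h1 (h2.congr fun k => ?_)
    simp only [Function.comp, ← mul_div_assoc, ← Finset.sum_div, Finset.mul_sum]
    rw [Finset.sum_comm, div_right_comm, Finset.sum_div (Finset.range (L k)) _ 4]
    push_cast
    congr 1
    refine Finset.sum_congr rfl fun n _ => ?_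
    simp only [a, Fin.sum_univ_four, map_add, map_mul, map_pow, Complex.conj_ofReal,
      Complex.conj_I]
    have e2 : Complex.I ^ 2 = -1 := Complex.I_sq
    have e1 : ((1 : Fin 4) : ℕ) = 1 := rfl
    have e3 : ((2 : Fin 4) : ℕ) = 2 := rfl
    have e4 : ((3 : Fin 4) : ℕ) = 3 := rfl
    simp only [Fin.val_zero, e1, e3, e4]
    linear_combination (((α k (n + h) : ℂ) * α k n + β k (n + h) * β k n) * (1 + Complex.I) / 4 +
      (α k (n + h) : ℂ) * β k n * (-(Complex.I ^ 4) + 2 * Complex.I ^ 2 - 3) / 4 +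
      (β k (n + h) : ℂ) * α k n * (1 + Complex.I ^ 4) / 4 +
      (β k (n + h) : ℂ) * β k n * (-(Complex.I ^ 7) + Complex.I ^ 5 + Complex.I ^ 4 -
        Complex.I ^ 3 - Complex.I ^ 2 - Complex.I) / 4) * e2
  refine ⟨fun κ => ((∑ j : Fin 4, Complex.I ^ (j : ℕ) * ψ j κ) / 4).re, ?_, fun ε hε δ hδ => ?_⟩
  · have : ∀ j, Continuous (ψ j) := hψc
    fun_prop
  choose H₀ hH₀ using fun j => hψ j (δ * ε ^ 2 / 4) (by positivity)
  refine ⟨Finset.univ.sup H₀, fun H hH m => ?_⟩
  let d : Fin 4 → ℕ → ℝ := fun j h =>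
    ‖∫ t, ee t ^ (m + h) ∂(σ j : Measure UnitAddCircle) - ψ j (fun θ => (m + h) • θ)‖
  have hd : ∀ j, ∑ h ∈ Finset.range H, d j h ^ 2 ≤ δ * ε ^ 2 / 4 * H := fun j =>
    hH₀ j H ((Finset.le_sup (f := H₀) (Finset.mem_univ j)).trans hH) m
  have hpt : ∀ h, |c (m + h) - ((∑ j : Fin 4, Complex.I ^ (j : ℕ) *
      ψ j (fun θ => (m + h) • θ)) / 4).re| ≤ (∑ j, d j h) / 4 := by
    intro h
    have h1 : c (m + h) = ((c (m + h) : ℝ) : ℂ).re := rfl
    rw [h1, ← Complex.sub_re, hcσ, ← sub_div, ← Finset.sum_sub_distrib]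
    refine (Complex.abs_re_le_norm _).trans ?_
    rw [norm_div]
    have h2 : ‖(4 : ℂ)‖ = 4 := by simp
    rw [h2]
    refine div_le_div_of_nonneg_right ((norm_sum_le _ _).trans (le_of_eq ?_)) (by norm_num)
    refine Finset.sum_congr rfl fun j _ => ?_
    rw [← mul_sub, norm_mul, norm_pow, Complex.norm_I, one_pow, one_mul]
  let B := (Finset.range H).filter fun h => ε < |c (m + h) - ((∑ j : Fin 4, Complex.I ^ (j : ℕ) *
      ψ j (fun θ => (m + h) • θ)) / 4).re|
  have hB : {h : ℕ | h < H ∧ ε < |c (m + h) - ((∑ j : Fin 4, Complex.I ^ (j : ℕ) *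
      ψ j (fun θ => (m + h) • θ)) / 4).re|} = (B : Set ℕ) := by
    ext h; simp [B]
  rw [hB, Set.ncard_coe_finset]
  have h3 : (B.card : ℝ) * ε ^ 2 ≤ ∑ h ∈ B, ∑ j, d j h ^ 2 := by
    rw [← nsmul_eq_mul]
    refine Finset.card_nsmul_le_sum _ _ _ fun h hh => ?_
    have h4 := (Finset.mem_filter.1 hh).2.le.trans (hpt h)
    simp only [Fin.sum_univ_four] at h4 ⊢
    have p0 : 0 ≤ d 0 h := norm_nonneg _
    have p1 : 0 ≤ d 1 h := norm_nonneg _
    have p2 : 0 ≤ d 2 h := norm_nonneg _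
    have p3 : 0 ≤ d 3 h := norm_nonneg _
    nlinarith [sq_nonneg (d 0 h - d 1 h), sq_nonneg (d 0 h - d 2 h), sq_nonneg (d 0 h - d 3 h),
      sq_nonneg (d 1 h - d 2 h), sq_nonneg (d 1 h - d 3 h), sq_nonneg (d 2 h - d 3 h),
      mul_self_le_mul_self hε.le h4]
  have h5 : ∑ h ∈ B, ∑ j, d j h ^ 2 ≤ ∑ h ∈ Finset.range H, ∑ j, d j h ^ 2 :=
    Finset.sum_le_sum_of_subset_of_nonneg (Finset.filter_subset _ _)
      fun h _ _ => Finset.sum_nonneg fun j _ => sq_nonneg _
  rw [Finset.sum_comm (s := Finset.range H), Fin.sum_univ_four] at h5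
  have h6 : (B.card : ℝ) * ε ^ 2 ≤ δ * H * ε ^ 2 := by
    nlinarith [hd 0, hd 1, hd 2, hd 3]
  exact le_of_mul_le_mul_right h6 (by positivity)

end Pool.Agent.H399Z.Corr
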